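import Pool.Agent.helper16.LW.Spec

/-!
# Project lw, module A1W
-/

set_option autoImplicit false

open Complex MeasureTheory

namespace Pool.Agent.LW

open Pool.Agent.ZD Pool.Agent.helper84.DM Pool.Agent.helper78.ED Pool.Agent.DH

/-- the total mass of the weights. -/
noncomputable def A1W_B (J : ℕ) (F : ℤ → ℝ) : ℝ := ∑ j ∈ IJ J, |F j|

theorem A1W_B_nonneg (J : ℕ) (F : ℤ → ℝ) : 0 ≤ A1W_B J F :=
  Finset.sum_nonneg fun _ _ => abs_nonneg _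

theorem A1W_rho_cont (hR : RHO_stmt) (J : ℕ) (F : ℤ → ℝ) : Continuous (rF J F) := (hR J F).1

theorem A1W_rho_le (hR : RHO_stmt) (J : ℕ) (F : ℤ → ℝ) (x : ℝ) : ‖rF J F x‖ ≤ A1W_B J F :=
  (hR J F).2.2.1 x

theorem A1W_rho_neg (hR : RHO_stmt) (J : ℕ) (F : ℤ → ℝ) (x : ℝ) : ‖rF J F (-x)‖ = ‖rF J F x‖ :=
  (hR J F).2.1 x

theorem A1W_kap_cont : Continuous kap := by
  unfold kap
  refine Continuous.div continuous_const (by fun_prop) fun x => ?_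
  positivity

theorem A1W_kap_nonneg (x : ℝ) : 0 ≤ kap x := by
  unfold kap
  positivity

theorem A1W_kap_le (x : ℝ) : kap x ≤ 1 := by
  unfold kap
  rw [div_le_one (by positivity)]
  nlinarith [sq_nonneg x]

/-- the integrand of SYM. -/
noncomputable def A1W_g (J : ℕ) (F : ℤ → ℝ) (X : ℝ) (m₁ m₂ m₃ : ℤ) (a b : ℝ) : ℝ :=
  if |a - b| ≤ 5 then
    ‖rF J F a‖ * ‖rF J F b‖ * ‖rF J F (a - b)‖ *
      kap (X * ((m₁ : ℝ) * Real.exp a + (m₂ : ℝ) * Real.exp b + m₃)) else 0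

theorem A1W_g_meas (hR : RHO_stmt) (J : ℕ) (F : ℤ → ℝ) (X : ℝ) (m₁ m₂ m₃ : ℤ) :
    Measurable (fun p : ℝ × ℝ => A1W_g J F X m₁ m₂ m₃ p.1 p.2) := by
  unfold A1W_g
  refine Measurable.ite ?_ ?_ measurable_const
  · exact measurableSet_le (by fun_prop) measurable_const
  · have h1 := A1W_rho_cont hR J F
    have h2 := A1W_kap_cont
    refine Continuous.measurable ?_
    have h3 : Continuous fun p : ℝ × ℝ => rF J F p.1 := h1.comp continuous_fst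
    have h4 : Continuous fun p : ℝ × ℝ => rF J F p.2 := h1.comp continuous_snd
    have h5 : Continuous fun p : ℝ × ℝ => rF J F (p.1 - p.2) :=
      h1.comp (continuous_fst.sub continuous_snd)
    have h6 : Continuous fun p : ℝ × ℝ =>
        kap (X * ((m₁ : ℝ) * Real.exp p.1 + (m₂ : ℝ) * Real.exp p.2 + m₃)) :=
      h2.comp (by fun_prop)
    exact ((h3.norm.mul h4.norm).mul h5.norm).mul h6

theorem A1W_g_nonneg (J : ℕ) (F : ℤ → ℝ) (X : ℝ) (m₁ m₂ m₃ : ℤ) (a b : ℝ) :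
    0 ≤ A1W_g J F X m₁ m₂ m₃ a b := by
  unfold A1W_g
  split_ifs
  · have := A1W_kap_nonneg (X * ((m₁ : ℝ) * Real.exp a + (m₂ : ℝ) * Real.exp b + m₃))
    positivity
  · exact le_rfl

theorem A1W_g_le (hR : RHO_stmt) (J : ℕ) (F : ℤ → ℝ) (X : ℝ) (m₁ m₂ m₃ : ℤ) (a b : ℝ) :
    A1W_g J F X m₁ m₂ m₃ a b ≤ A1W_B J F ^ 3 := by
  unfold A1W_g
  split_ifs
  · have h0 := A1W_kap_nonneg (X * ((m₁ : ℝ) * Real.exp a + (m₂ : ℝ) * Real.exp b + m₃))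
    have h1 := A1W_kap_le (X * ((m₁ : ℝ) * Real.exp a + (m₂ : ℝ) * Real.exp b + m₃))
    have h2 := A1W_rho_le hR J F a
    have h3 := A1W_rho_le hR J F b
    have h4 := A1W_rho_le hR J F (a - b)
    have h5 := A1W_B_nonneg J F
    calc _ ≤ A1W_B J F * A1W_B J F * A1W_B J F * 1 := by gcongr
      _ = _ := by ring
  · exact pow_nonneg (A1W_B_nonneg J F) 3

theorem A1W_ii (f : ℝ → ℝ) (hf : StronglyMeasurable f) (B : ℝ) (hB : ∀ x, |f x| ≤ B) :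
    IntervalIntegrable f volume (-5) 5 := by
  rw [intervalIntegrable_iff_integrableOn_Ioc_of_le (by norm_num)]
  refine Measure.integrableOn_of_bounded (M := B) ?_ hf.aestronglyMeasurable ?_
  · rw [Real.volume_Ioc]
    exact ENNReal.ofReal_ne_top
  · exact Filter.Eventually.of_forall fun x => by rw [Real.norm_eq_abs]; exact hB x

theorem A1W_g_ii (hR : RHO_stmt) (J : ℕ) (F : ℤ → ℝ) (X : ℝ) (m₁ m₂ m₃ : ℤ) (a : ℝ) :
    IntervalIntegrable (fun b => A1W_g J F X m₁ m₂ m₃ a b) volume (-5) 5 := by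
  refine A1W_ii _ ?_ (A1W_B J F ^ 3) fun b => ?_
  · exact ((A1W_g_meas hR J F X m₁ m₂ m₃).comp (measurable_const.prodMk measurable_id)).stronglyMeasurable
  · rw [abs_of_nonneg (A1W_g_nonneg _ _ _ _ _ _ _ _)]
    exact A1W_g_le hR _ _ _ _ _ _ _ _

theorem A1W_g_jj (hR : RHO_stmt) (J : ℕ) (F : ℤ → ℝ) (X : ℝ) (m₁ m₂ m₃ : ℤ) :
    IntervalIntegrable (fun a => ∫ b in (-5 : ℝ)..5, A1W_g J F X m₁ m₂ m₃ a b) volume (-5) 5 := by
  refine A1W_ii _ ?_ (10 * A1W_B J F ^ 3) fun a => ?_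
  · have h := (A1W_g_meas hR J F X m₁ m₂ m₃).stronglyMeasurable.integral_prod_right'
      (ν := volume.restrict (Set.Ioc (-5 : ℝ) 5))
    have h2 : (fun a => ∫ b in (-5 : ℝ)..5, A1W_g J F X m₁ m₂ m₃ a b) =
        fun a => ∫ b in Set.Ioc (-5 : ℝ) 5, A1W_g J F X m₁ m₂ m₃ a b := by
      funext a
      rw [intervalIntegral.integral_of_le (by norm_num)]
    rw [h2]
    exact h
  · have h := intervalIntegral.norm_integral_le_of_norm_le_const (a := (-5 : ℝ)) (b := 5)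
      (f := fun b => A1W_g J F X m₁ m₂ m₃ a b) (C := A1W_B J F ^ 3) (fun b _ => by
        rw [Real.norm_eq_abs, abs_of_nonneg (A1W_g_nonneg _ _ _ _ _ _ _ _)]
        exact A1W_g_le hR _ _ _ _ _ _ _ _)
    rw [Real.norm_eq_abs] at h
    refine h.trans (le_of_eq ?_)
    norm_num
    ring

theorem A1W_isum (s : Finset ℤ) {f : ℤ → ℝ → ℝ} (h : ∀ i ∈ s, IntervalIntegrable (f i) volume (-5) 5) :
    IntervalIntegrable (fun x => ∑ i ∈ s, f i x) volume (-5) 5 := by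
  have h1 := IntervalIntegrable.sum s h
  have h2 : (fun x => ∑ i ∈ s, f i x) = ∑ i ∈ s, f i := by
    funext x
    rw [Finset.sum_apply]
  rwa [h2]

/-- restriction of an integral to `[-5, 5]`. -/
theorem A1W_restrict (f : ℝ → ℂ) (hf : ∀ x, 5 < |x| → f x = 0) :
    ∫ x, f x = ∫ x in (-5 : ℝ)..5, f x := by
  rw [intervalIntegral.integral_of_le (by norm_num), ← integral_Icc_eq_integral_Ioc]
  refine (setIntegral_eq_integral_of_forall_compl_eq_zero fun x hx => hf x ?_).symm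
  by_contra hcon
  exact hx (abs_le.1 (not_lt.1 hcon))

theorem A1W (h1 : CDW_stmt) (h2 : GEC_stmt) (h3 : K3B_stmt) (h4 : SYW_stmt) (hR : RHO_stmt) : A1W_stmt := by
  obtain ⟨C, hC, hK⟩ := h3
  refine ⟨3 * (C * Real.exp 10), by positivity, fun J F X M hX => ?_⟩
  obtain ⟨hGc, hG0, hGB⟩ := h2 X M
  rw [h1 (GE X M) hGc hG0 J F (Bs X M) hGB]
  -- restriction to the square
  have hin : ∀ a, ∫ b : ℝ, rF J F (-a) * rF J F (a - b) * rF J F b *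
      ∫ s : ℝ, GE X M (s + a) * GE X M (s + b) * GE X M s =
      ∫ b in (-5 : ℝ)..5, rF J F (-a) * rF J F (a - b) * rF J F b *
      ∫ s : ℝ, GE X M (s + a) * GE X M (s + b) * GE X M s := by
    intro a
    refine A1W_restrict _ fun b hb => ?_
    rw [(hK X M a b hX).1 (Or.inr (Or.inl hb)), mul_zero]
  have hout : ∫ a : ℝ, ∫ b : ℝ, rF J F (-a) * rF J F (a - b) * rF J F b *
      ∫ s : ℝ, GE X M (s + a) * GE X M (s + b) * GE X M s =
      ∫ a in (-5 : ℝ)..5, ∫ b in (-5 : ℝ)..5, rF J F (-a) * rF J F (a - b) * rF J F b *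
      ∫ s : ℝ, GE X M (s + a) * GE X M (s + b) * GE X M s := by
    simp_rw [hin]
    refine A1W_restrict _ fun a ha => ?_
    rw [intervalIntegral.integral_congr (g := fun _ => (0 : ℂ)) fun b _ => ?_]
    · simp
    · change rF J F (-a) * rF J F (a - b) * rF J F b *
        ∫ s : ℝ, GE X M (s + a) * GE X M (s + b) * GE X M s = 0
      rw [(hK X M a b hX).1 (Or.inl ha), mul_zero]
  rw [hout]
  have hX3 : 0 ≤ X ^ 3 := by positivity
  -- pointwise bound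
  have hpt : ∀ a b, ‖rF J F (-a) * rF J F (a - b) * rF J F b *
      ∫ s : ℝ, GE X M (s + a) * GE X M (s + b) * GE X M s‖ ≤
      C * X ^ 3 * ∑ m₁ ∈ MM M, ∑ m₂ ∈ MM M, ∑ m₃ ∈ MM M, A1W_g J F X m₁ m₂ m₃ a b := by
    intro a b
    by_cases hab : |a - b| ≤ 5
    · rw [norm_mul, norm_mul, norm_mul, A1W_rho_neg hR]
      have hk := (hK X M a b hX).2
      have h5 : C * X ^ 3 * ∑ m₁ ∈ MM M, ∑ m₂ ∈ MM M, ∑ m₃ ∈ MM M, A1W_g J F X m₁ m₂ m₃ a b =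
          ‖rF J F a‖ * ‖rF J F (a - b)‖ * ‖rF J F b‖ *
          (C * X ^ 3 * ∑ m₁ ∈ MM M, ∑ m₂ ∈ MM M, ∑ m₃ ∈ MM M,
            kap (X * ((m₁ : ℝ) * Real.exp a + (m₂ : ℝ) * Real.exp b + m₃))) := by
        simp only [A1W_g, if_pos hab, ← Finset.mul_sum]
        ring
      rw [h5]
      exact mul_le_mul_of_nonneg_left hk (by positivity)
    · have hab' : 5 < |a - b| := not_le.1 hab
      rw [(hK X M a b hX).1 (Or.inr (Or.inr hab')), mul_zero, norm_zero]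
      have h5 : 0 ≤ ∑ m₁ ∈ MM M, ∑ m₂ ∈ MM M, ∑ m₃ ∈ MM M, A1W_g J F X m₁ m₂ m₃ a b :=
        Finset.sum_nonneg fun _ _ => Finset.sum_nonneg fun _ _ => Finset.sum_nonneg fun _ _ =>
          A1W_g_nonneg _ _ _ _ _ _ _ _
      positivity
  -- the iterated integral of the bound
  have hgi : ∀ a, IntervalIntegrable (fun b => C * X ^ 3 * ∑ m₁ ∈ MM M, ∑ m₂ ∈ MM M,
      ∑ m₃ ∈ MM M, A1W_g J F X m₁ m₂ m₃ a b) volume (-5) 5 := by
    intro a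
    refine IntervalIntegrable.const_mul ?_ _
    refine A1W_isum _ fun m₁ _ => ?_
    refine A1W_isum _ fun m₂ _ => ?_
    refine A1W_isum _ fun m₃ _ => ?_
    exact A1W_g_ii hR J F X m₁ m₂ m₃ a
  have hval : ∀ a, ∫ b in (-5 : ℝ)..5, (C * X ^ 3 * ∑ m₁ ∈ MM M, ∑ m₂ ∈ MM M,
      ∑ m₃ ∈ MM M, A1W_g J F X m₁ m₂ m₃ a b) =
      C * X ^ 3 * ∑ m₁ ∈ MM M, ∑ m₂ ∈ MM M, ∑ m₃ ∈ MM M,
        ∫ b in (-5 : ℝ)..5, A1W_g J F X m₁ m₂ m₃ a b := by
    intro a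
    rw [intervalIntegral.integral_const_mul]
    congr 1
    rw [intervalIntegral.integral_finsetSum]
    · refine Finset.sum_congr rfl fun m₁ _ => ?_
      rw [intervalIntegral.integral_finsetSum]
      · refine Finset.sum_congr rfl fun m₂ _ => ?_
        rw [intervalIntegral.integral_finsetSum]
        intro m₃ _
        exact A1W_g_ii hR J F X m₁ m₂ m₃ a
      · intro m₂ _
        refine A1W_isum _ fun m₃ _ => ?_
        exact A1W_g_ii hR J F X m₁ m₂ m₃ a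
    · intro m₁ _
      refine A1W_isum _ fun m₂ _ => ?_
      refine A1W_isum _ fun m₃ _ => ?_
      exact A1W_g_ii hR J F X m₁ m₂ m₃ a
  have hinner : ∀ a, ‖∫ b in (-5 : ℝ)..5, rF J F (-a) * rF J F (a - b) * rF J F b *
      ∫ s : ℝ, GE X M (s + a) * GE X M (s + b) * GE X M s‖ ≤
      C * X ^ 3 * ∑ m₁ ∈ MM M, ∑ m₂ ∈ MM M, ∑ m₃ ∈ MM M,
        ∫ b in (-5 : ℝ)..5, A1W_g J F X m₁ m₂ m₃ a b := by
    intro a
    rw [← hval a]
    exact intervalIntegral.norm_integral_le_of_norm_le (by norm_num)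
      (Filter.Eventually.of_forall fun b _ => hpt a b) (hgi a)
  have hgo : IntervalIntegrable (fun a => C * X ^ 3 * ∑ m₁ ∈ MM M, ∑ m₂ ∈ MM M,
      ∑ m₃ ∈ MM M, ∫ b in (-5 : ℝ)..5, A1W_g J F X m₁ m₂ m₃ a b) volume (-5) 5 := by
    refine IntervalIntegrable.const_mul ?_ _
    refine A1W_isum _ fun m₁ _ => ?_
    refine A1W_isum _ fun m₂ _ => ?_
    refine A1W_isum _ fun m₃ _ => ?_
    exact A1W_g_jj hR J F X m₁ m₂ m₃
  refine (intervalIntegral.norm_integral_le_of_norm_le (by norm_num)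
      (Filter.Eventually.of_forall fun a _ => hinner a) hgo).trans ?_
  have hval2 : ∫ a in (-5 : ℝ)..5, (C * X ^ 3 * ∑ m₁ ∈ MM M, ∑ m₂ ∈ MM M,
      ∑ m₃ ∈ MM M, ∫ b in (-5 : ℝ)..5, A1W_g J F X m₁ m₂ m₃ a b) =
      C * X ^ 3 * ∑ m₁ ∈ MM M, ∑ m₂ ∈ MM M, ∑ m₃ ∈ MM M,
        ∫ a in (-5 : ℝ)..5, ∫ b in (-5 : ℝ)..5, A1W_g J F X m₁ m₂ m₃ a b := by
    rw [intervalIntegral.integral_const_mul]
    congr 1
    rw [intervalIntegral.integral_finsetSum]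
    · refine Finset.sum_congr rfl fun m₁ _ => ?_
      rw [intervalIntegral.integral_finsetSum]
      · refine Finset.sum_congr rfl fun m₂ _ => ?_
        rw [intervalIntegral.integral_finsetSum]
        intro m₃ _
        exact A1W_g_jj hR J F X m₁ m₂ m₃
      · intro m₂ _
        refine A1W_isum _ fun m₃ _ => ?_
        exact A1W_g_jj hR J F X m₁ m₂ m₃
    · intro m₁ _
      refine A1W_isum _ fun m₂ _ => ?_
      refine A1W_isum _ fun m₃ _ => ?_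
      exact A1W_g_jj hR J F X m₁ m₂ m₃
  rw [hval2]
  have hsym : ∑ m₁ ∈ MM M, ∑ m₂ ∈ MM M, ∑ m₃ ∈ MM M,
      ∫ a in (-5 : ℝ)..5, ∫ b in (-5 : ℝ)..5, A1W_g J F X m₁ m₂ m₃ a b ≤
      ∑ m₁ ∈ MM M, ∑ m₂ ∈ MM M, ∑ m₃ ∈ MM M,
        Real.exp 10 * (JW J F X m₁ m₂ m₃ + JW J F X m₁ m₃ m₂ + JW J F X m₂ m₃ m₁) :=
    Finset.sum_le_sum fun m₁ _ => Finset.sum_le_sum fun m₂ _ => Finset.sum_le_sum fun m₃ _ =>
      h4 J F X m₁ m₂ m₃ hX
  have hs2 : ∑ m₁ ∈ MM M, ∑ m₂ ∈ MM M, ∑ m₃ ∈ MM M, JW J F X m₁ m₃ m₂ =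
      ∑ m₁ ∈ MM M, ∑ m₂ ∈ MM M, ∑ m₃ ∈ MM M, JW J F X m₁ m₂ m₃ :=
    Finset.sum_congr rfl fun m₁ _ => Finset.sum_comm
  have hs3 : ∑ m₁ ∈ MM M, ∑ m₂ ∈ MM M, ∑ m₃ ∈ MM M, JW J F X m₂ m₃ m₁ =
      ∑ m₁ ∈ MM M, ∑ m₂ ∈ MM M, ∑ m₃ ∈ MM M, JW J F X m₁ m₂ m₃ := by
    rw [Finset.sum_comm]
    refine Finset.sum_congr rfl fun m₂ _ => ?_
    rw [Finset.sum_comm]
  have htot : ∑ m₁ ∈ MM M, ∑ m₂ ∈ MM M, ∑ m₃ ∈ MM M,
        Real.exp 10 * (JW J F X m₁ m₂ m₃ + JW J F X m₁ m₃ m₂ + JW J F X m₂ m₃ m₁) =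
      3 * Real.exp 10 * ∑ m₁ ∈ MM M, ∑ m₂ ∈ MM M, ∑ m₃ ∈ MM M, JW J F X m₁ m₂ m₃ := by
    simp_rw [← Finset.mul_sum, Finset.sum_add_distrib]
    rw [hs2, hs3]
    ring
  rw [htot] at hsym
  have hfin := mul_le_mul_of_nonneg_left hsym (by positivity : 0 ≤ C * X ^ 3)
  refine hfin.trans (le_of_eq ?_)
  ring

end Pool.Agent.LW
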